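import Pool.Agent.Q109.RB.Grid3

/-!
Three-dimensional grids have unbounded reduced bandwidth.
-/

set_option autoImplicit false

namespace Pool.Agent.Results.MP_1dbc65_co.GridUnbounded

open Q109.RB

/-- The three-dimensional grid `P_a □ P_b □ P_c`. -/
def grid (a b c : ℕ) : SimpleGraph (Fin a × Fin b × Fin c) :=
  (SimpleGraph.pathGraph a) □ ((SimpleGraph.pathGraph b) □ (SimpleGraph.pathGraph c))

/-- The class of all three-dimensional grids has unbounded reduced bandwidth: no constant `k` bounds
the reduced bandwidth of all grids `P_a □ P_b □ P_c`. (The proof gives cubic grids `a = b = c`.) -/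
theorem result : ¬ ∃ k : ℕ, ∀ a b c : ℕ, 1 ≤ a → 1 ≤ b → 1 ≤ c →
    reducedBandwidth (grid a b c) ≤ k := by
  rintro ⟨k, hk⟩
  obtain ⟨n, hn, h⟩ := cube_unbounded k
  have h1 := hk n n n hn hn hn
  exact absurd h1 (not_le.2 h)

end Pool.Agent.Results.MP_1dbc65_co.GridUnbounded
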